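import Mathlib

/-!
# Project KZ: the definition `FoldsTo` (shared by Alg.lean and Rel.lean)
-/

set_option autoImplicit false

namespace Pool.Agent.Helper77.KZ

open Finset

variable {n : ℕ}

/-- `m` folds to `R` modulo `n'` -/
def FoldsTo [NeZero n] (m : ZMod n → ℤ) (n' : ℕ) (R : ℤ) : Prop :=
  ∀ j < n', (∑ i : ZMod n, if i.val % n' = j then m i else 0) = if j = 0 then R else 0

end Pool.Agent.Helper77.KZ
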