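import Pool.Agent.Helper77.KZ.Defs
import Pool.Agent.Helper45.KZ.Folds
import Pool.Agent.Helper18.Katz8

/-!
# Project KZ, KZ-17: small relations for large `p`
-/

set_option autoImplicit false

namespace Pool.Agent.Helper77.KZ

open Finset Filter

variable {n : ℕ}

private theorem r45_dvd_pow {x : ℤ} {a b : ℕ} (h : a ∣ b) : (x ^ a - 1) ∣ (x ^ b - 1) := by
  obtain ⟨c, rfl⟩ := h
  have := sub_one_dvd_pow_sub_one (x ^ a) c
  rwa [← pow_mul] at this

theorem folds_of_relation [NeZero n] (u m : ZMod n → ℤ) (n' : ℕ) (hn' : n' ∈ n.properDivisors) :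
    ∀ᶠ p : ℕ in atTop, ∀ d : ℤ, ((p : ℤ) ^ n' - 1) ∣ d - 1 →
      d * ∑ i, u i * (p : ℤ) ^ i.val ≡ ∑ i, m i * (p : ℤ) ^ i.val [ZMOD ((p : ℤ) ^ n - 1)] →
      FoldsTo (fun i => u i - m i) n' 0 := by
  obtain ⟨hdvd, hlt⟩ := Nat.mem_properDivisors.1 hn'
  have hn'0 : n' ≠ 0 := by
    rintro rfl
    have := Nat.eq_zero_of_zero_dvd hdvd
    exact NeZero.ne n this
  haveI : NeZero n' := ⟨hn'0⟩
  set B : ℤ := ∑ i, |u i - m i| with hB
  filter_upwards [eventually_ge_atTop (B + 2).toNat] with p hp d hd hrel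
  have hpB : B + 2 ≤ (p : ℤ) := Int.toNat_le.mp hp
  have hB0 : 0 ≤ B := Finset.sum_nonneg fun _ _ => abs_nonneg _
  set W : ZMod n' → ℤ := fun k => ∑ i : ZMod n, if i.val % n' = k.val then u i - m i else 0
    with hW
  have hWB : ∀ k, |W k| ≤ B := by
    intro k
    refine (Finset.abs_sum_le_sum_abs _ _).trans ?_
    refine Finset.sum_le_sum fun i _ => ?_
    split_ifs
    · exact le_rfl
    · simp
  have hsum : ∑ k : ZMod n', W k * (p : ℤ) ^ k.val = ∑ i : ZMod n, (u i - m i) *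
      (p : ℤ) ^ (i.val % n') := by
    simp only [hW, Finset.sum_mul]
    rw [Finset.sum_comm]
    refine Finset.sum_congr rfl fun i _ => ?_
    rw [Finset.sum_eq_single ((i.val % n' : ℕ) : ZMod n')]
    · rw [ZMod.val_natCast, Nat.mod_mod, if_pos rfl]
    · intro k _ hk
      rw [if_neg, zero_mul]
      intro h
      apply hk
      apply ZMod.val_injective n'
      rw [ZMod.val_natCast, Nat.mod_mod]
      exact h.symm
    · intro h
      exact absurd (Finset.mem_univ _) h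
  have hmod : ((p : ℤ) ^ n' - 1) ∣ ∑ k : ZMod n', W k * (p : ℤ) ^ k.val := by
    rw [hsum]
    have h1 : ∑ i : ZMod n, (u i - m i) * (p : ℤ) ^ (i.val % n') ≡
        ∑ i : ZMod n, (u i - m i) * (p : ℤ) ^ i.val [ZMOD ((p : ℤ) ^ n' - 1)] := by
      apply Int.ModEq.sum
      intro i _
      apply Int.ModEq.mul_left
      have h2 : (p : ℤ) ^ n' ≡ 1 [ZMOD ((p : ℤ) ^ n' - 1)] := by
        rw [Int.modEq_comm]
        exact (Int.modEq_iff_dvd).mpr (dvd_refl _)
      have h3 := (h2.pow (i.val / n')).mul_right ((p : ℤ) ^ (i.val % n'))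
      rw [one_pow, one_mul, ← pow_mul, ← pow_add, Nat.div_add_mod] at h3
      exact h3.symm
    have h4 : d * ∑ i, u i * (p : ℤ) ^ i.val ≡ ∑ i, m i * (p : ℤ) ^ i.val
        [ZMOD ((p : ℤ) ^ n' - 1)] := hrel.of_dvd (r45_dvd_pow hdvd)
    have h5 : ∑ i, u i * (p : ℤ) ^ i.val ≡ d * ∑ i, u i * (p : ℤ) ^ i.val
        [ZMOD ((p : ℤ) ^ n' - 1)] := by
      have h6 : 1 ≡ d [ZMOD ((p : ℤ) ^ n' - 1)] := (Int.modEq_iff_dvd).mpr hd
      have := h6.mul_right (∑ i, u i * (p : ℤ) ^ i.val)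
      rwa [one_mul] at this
    have h7 := (h5.trans h4).symm.dvd
    have h8 : ∑ i, u i * (p : ℤ) ^ i.val - ∑ i, m i * (p : ℤ) ^ i.val =
        ∑ i : ZMod n, (u i - m i) * (p : ℤ) ^ i.val := by
      rw [← Finset.sum_sub_distrib]
      exact Finset.sum_congr rfl fun i _ => by ring
    rw [h8] at h7
    exact (Int.ModEq.dvd_iff h1).mpr h7
  have hz := Helper18.Katz.small_relation (n := n') (p := p) W B hWB hB0 (by linarith) hmod
  intro j hj
  have h9 := hz ((j : ℕ) : ZMod n')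
  simp only [hW] at h9
  rw [ZMod.val_natCast, Nat.mod_eq_of_lt hj] at h9
  rw [ite_self]
  exact h9

open Polynomial in
private theorem r45_dvd_of_folds [NeZero n] (w : ZMod n → ℤ) (n' : ℕ) (hn' : n' ≠ 0)
    (h : FoldsTo w n' 0) : (X ^ n' - 1 : ℤ[X]) ∣ Helper18.Katz.toPoly n w := by
  have h1 : (X ^ n' - 1 : ℤ[X]) ∣ Helper18.Katz.toPoly n w -
      ∑ i : ZMod n, C (w i) * X ^ (i.val % n') := by
    unfold Helper18.Katz.toPoly
    rw [← Finset.sum_sub_distrib]
    refine Finset.dvd_sum fun i _ => ?_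
    have h2 : C (w i) * X ^ i.val - C (w i) * X ^ (i.val % n') =
        C (w i) * X ^ (i.val % n') * (((X : ℤ[X]) ^ n') ^ (i.val / n') - 1) := by
      have h3 : (X : ℤ[X]) ^ i.val = X ^ (i.val % n') * (X ^ n') ^ (i.val / n') := by
        rw [← pow_mul, ← pow_add, Nat.mod_add_div]
      rw [h3]; ring
    rw [h2]
    exact Dvd.dvd.mul_left (sub_one_dvd_pow_sub_one _ _) _
  have h4 : ∑ i : ZMod n, C (w i) * (X : ℤ[X]) ^ (i.val % n') = 0 := by
    have h5 : ∑ i : ZMod n, C (w i) * (X : ℤ[X]) ^ (i.val % n') = ∑ j ∈ range n',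
        C (∑ i : ZMod n, if i.val % n' = j then w i else 0) * (X : ℤ[X]) ^ j := by
      simp only [map_sum, Finset.sum_mul]
      rw [Finset.sum_comm]
      refine Finset.sum_congr rfl fun i _ => ?_
      rw [Finset.sum_eq_single (i.val % n')]
      · rw [if_pos rfl]
      · intro j _ hj
        rw [if_neg (fun h => hj h.symm), map_zero, zero_mul]
      · intro h6
        exact absurd (Finset.mem_range.2 (Nat.mod_lt _ (Nat.pos_of_ne_zero hn'))) h6
    rw [h5]
    refine Finset.sum_eq_zero fun j hj => ?_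
    rw [h j (Finset.mem_range.1 hj), ite_self, map_zero, zero_mul]
  rwa [h4, sub_zero] at h1

open Polynomial in
private theorem r45_eventually_lt (P R : ℤ[X]) (hRP : R.degree < P.degree) (hR : R ≠ 0) :
    ∀ᶠ p : ℕ in atTop, R.eval (p : ℤ) ≠ 0 ∧ |R.eval (p : ℤ)| < |P.eval (p : ℤ)| := by
  have h1 : ∀ᶠ x : ℝ in atTop, |(R.map (Int.castRingHom ℝ)).eval x| ≤
      (1 / 2) * |(P.map (Int.castRingHom ℝ)).eval x| := by
    have h2 := Polynomial.isLittleO_atTop_of_degree_lt (P := R.map (Int.castRingHom ℝ))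
      (Q := P.map (Int.castRingHom ℝ)) (by
        rwa [degree_map_eq_of_injective (RingHom.injective_int _),
          degree_map_eq_of_injective (RingHom.injective_int _)])
    exact h2.def (by norm_num)
  have h3 : ∀ Q : ℤ[X], Q ≠ 0 → ∀ᶠ p : ℕ in atTop, Q.eval (p : ℤ) ≠ 0 := by
    intro Q hQ
    have h4 : {x : ℤ | Q.IsRoot x}.Finite := Polynomial.finite_setOf_isRoot hQ
    have h5 : {p : ℕ | Q.IsRoot (p : ℤ)}.Finite :=
      h4.preimage (fun a _ b _ h => by exact_mod_cast h)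
    have h6 := h5.compl_mem_cofinite
    rw [Nat.cofinite_eq_atTop] at h6
    exact h6
  have hP : P ≠ 0 := by
    rintro rfl
    simp at hRP
  filter_upwards [tendsto_natCast_atTop_atTop.eventually h1, h3 R hR, h3 P hP] with p hp1 hp2 hp3
  refine ⟨hp2, ?_⟩
  have e1 : ∀ Q : ℤ[X], (Q.map (Int.castRingHom ℝ)).eval ((p : ℕ) : ℝ) =
      ((Q.eval (p : ℤ) : ℤ) : ℝ) := by
    intro Q
    have := eval_intCast_map (Int.castRingHom ℝ) Q (p : ℤ)
    simpa using this
  rw [e1, e1] at hp1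
  have h7 : (0 : ℝ) < |((P.eval (p : ℤ) : ℤ) : ℝ)| := by
    rw [abs_pos]
    exact_mod_cast hp3
  have h8 : |((R.eval (p : ℤ) : ℤ) : ℝ)| < |((P.eval (p : ℤ) : ℤ) : ℝ)| := by linarith
  exact_mod_cast h8

open Polynomial in
private theorem r45_cyclo_dvd [NeZero n] (w : ZMod n → ℤ)
    (h : ∀ k ∈ n.divisors, cyclotomic k ℤ ∣ Helper18.Katz.toPoly n w) : w = 0 := by
  have hnpos := NeZero.pos n
  have h1 : (X ^ n - 1 : ℚ[X]) ∣ (Helper18.Katz.toPoly n w).map (Int.castRingHom ℚ) := by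
    rw [← prod_cyclotomic_eq_X_pow_sub_one hnpos ℚ]
    refine Finset.prod_dvd_of_coprime ?_ ?_
    · intro a ha b hb hab
      exact cyclotomic.isCoprime_rat hab
    · intro k hk
      have := Polynomial.map_dvd (Int.castRingHom ℚ) (h k hk)
      rwa [map_cyclotomic] at this
  have h2 : (Helper18.Katz.toPoly n w).map (Int.castRingHom ℚ) = 0 := by
    by_contra hne
    have h3 := Polynomial.natDegree_le_of_dvd h1 hne
    have h6 : (X ^ n - 1 : ℚ[X]).natDegree = n := by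
      simpa using natDegree_X_pow_sub_C (n := n) (r := (1 : ℚ))
    rw [h6] at h3
    have h4 : ((Helper18.Katz.toPoly n w).map (Int.castRingHom ℚ)).natDegree < n :=
      lt_of_le_of_lt natDegree_map_le (Helper18.Katz.natDegree_toPoly_lt w)
    omega
  have h5 : Helper18.Katz.toPoly n w = 0 :=
    (Polynomial.map_eq_zero_iff (RingHom.injective_int (Int.castRingHom ℚ))).1 h2
  funext i
  have := Helper18.Katz.coeff_toPoly w i
  rw [h5, coeff_zero] at this
  exact this.symm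

open Polynomial in
theorem trivial_of_dvd [NeZero n] (hn : 2 ≤ n) (u m : ZMod n → ℤ)
    (hu : Polynomial.cyclotomic n ℤ ∣ Helper18.Katz.toPoly n u) :
    ∀ᶠ p : ℕ in atTop, ∀ d : ℤ, (∀ n' ∈ n.properDivisors, ((p : ℤ) ^ n' - 1) ∣ d - 1) →
      d * ∑ i, u i * (p : ℤ) ^ i.val ≡ ∑ i, m i * (p : ℤ) ^ i.val [ZMOD ((p : ℤ) ^ n - 1)] →
      u = m := by
  have hfold : ∀ᶠ p : ℕ in atTop, ∀ n' ∈ n.properDivisors, ∀ d : ℤ,
      ((p : ℤ) ^ n' - 1) ∣ d - 1 →
      d * ∑ i, u i * (p : ℤ) ^ i.val ≡ ∑ i, m i * (p : ℤ) ^ i.val [ZMOD ((p : ℤ) ^ n - 1)] →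
      FoldsTo (fun i => u i - m i) n' 0 := by
    rw [Filter.eventually_all_finset]
    intro n' hn'
    exact folds_of_relation u m n' hn'
  set M := Helper18.Katz.toPoly n m with hM
  set R := M %ₘ cyclotomic n ℤ with hR
  have hmonic := cyclotomic.monic n ℤ
  have hdeg : R.degree < (cyclotomic n ℤ).degree := degree_modByMonic_lt M hmonic
  have hbig : ∀ᶠ p : ℕ in atTop, R ≠ 0 → R.eval (p : ℤ) ≠ 0 ∧
      |R.eval (p : ℤ)| < |(cyclotomic n ℤ).eval (p : ℤ)| := by
    by_cases hR0 : R = 0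
    · exact Filter.Eventually.of_forall fun p h => absurd hR0 h
    · filter_upwards [r45_eventually_lt (cyclotomic n ℤ) R hdeg hR0] with p hp _
      exact hp
  filter_upwards [hfold, hbig] with p hp1 hp2 d hd hrel
  have hf : ∀ n' ∈ n.properDivisors, FoldsTo (fun i => u i - m i) n' 0 :=
    fun n' hn' => hp1 n' hn' d (hd n' hn') hrel
  -- the polynomial of the difference
  have hsub : Helper18.Katz.toPoly n (fun i => u i - m i) = Helper18.Katz.toPoly n u - M := by
    rw [hM]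
    unfold Helper18.Katz.toPoly
    rw [← Finset.sum_sub_distrib]
    refine Finset.sum_congr rfl fun i _ => ?_
    rw [C_sub]; ring
  -- `Φ_n` divides `M`
  have hΦM : cyclotomic n ℤ ∣ M := by
    rw [← modByMonic_eq_zero_iff_dvd hmonic]
    by_contra hR0
    obtain ⟨h1, h2⟩ := hp2 hR0
    apply h1
    refine Int.eq_zero_of_abs_lt_dvd ?_ h2
    have h3 : (cyclotomic n ℤ).eval (p : ℤ) ∣ ((p : ℤ) ^ n - 1) := by
      have h4 : cyclotomic n ℤ ∣ (X ^ n - 1 : ℤ[X]) := cyclotomic.dvd_X_pow_sub_one n ℤ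
      have := eval_dvd (x := (p : ℤ)) h4
      simpa using this
    have h5 : (cyclotomic n ℤ).eval (p : ℤ) ∣ d * ∑ i, u i * (p : ℤ) ^ i.val := by
      refine Dvd.dvd.mul_left ?_ d
      rw [← Helper18.Katz.eval_toPoly]
      exact eval_dvd hu
    have h6 : (cyclotomic n ℤ).eval (p : ℤ) ∣ M.eval (p : ℤ) := by
      rw [hM, Helper18.Katz.eval_toPoly]
      exact (Int.ModEq.dvd_iff (hrel.of_dvd h3)).mp h5
    have h7 : M = R + cyclotomic n ℤ * (M /ₘ cyclotomic n ℤ) := (modByMonic_add_div M _).symm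
    have h8 : M.eval (p : ℤ) = R.eval (p : ℤ) + (cyclotomic n ℤ).eval (p : ℤ) *
        (M /ₘ cyclotomic n ℤ).eval (p : ℤ) := by
      conv_lhs => rw [h7]
      rw [eval_add, eval_mul]
    rw [h8] at h6
    exact (abs_dvd _ _).2 ((Int.dvd_add_left (Dvd.intro _ rfl)).1 h6)
  have hall : ∀ k ∈ n.divisors, cyclotomic k ℤ ∣ Helper18.Katz.toPoly n (fun i => u i - m i) := by
    intro k hk
    rw [← Nat.cons_self_properDivisors (NeZero.ne n), Finset.mem_cons] at hk
    rcases hk with rfl | hk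
    · rw [hsub]
      exact dvd_sub hu hΦM
    · have hk0 : k ≠ 0 := by
        rintro rfl
        have := (Nat.mem_properDivisors.1 hk).1
        exact NeZero.ne n (Nat.eq_zero_of_zero_dvd this)
      exact (cyclotomic.dvd_X_pow_sub_one k ℤ).trans (r45_dvd_of_folds _ k hk0 (hf k hk))
  have hw := r45_cyclo_dvd (fun i => u i - m i) hall
  funext i
  have := congrFun hw i
  simp only [Pi.zero_apply] at this
  linarith

end Pool.Agent.Helper77.KZ
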